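import Mathlib

set_option autoImplicit false
set_option linter.unusedSectionVars false

namespace Pool.Agent.Results.MP_1f99fc_al.Yes

open Matrix

/-- the irreducible complex characters of `G` -/
def Irr (G : Type) [Group G] : Set (G → ℂ) :=
  {χ | ∃ V : FDRep ℂ G, CategoryTheory.Simple V ∧ χ = V.character}

/-- supercharacter theories (Diaconis-Isaacs) -/
structure SCT (G : Type) [Group G] where
  X : Set (Set (G → ℂ))
  K : Set (Set G)
  X_sub : ∀ B ∈ X, B.Nonempty ∧ B ⊆ Irr G
  X_part : ∀ χ ∈ Irr G, ∃! B, B ∈ X ∧ χ ∈ B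
  K_part : Setoid.IsPartition K
  card_eq : X.ncard = K.ncard
  one_mem : {1} ∈ K
  const : ∀ B ∈ X, ∀ C ∈ K, ∀ g ∈ C, ∀ h ∈ C, ∑ᶠ ψ ∈ B, ψ 1 * ψ g = ∑ᶠ ψ ∈ B, ψ 1 * ψ h

variable (n : ℕ) (F : Type) [Field F] [Fintype F] [DecidableEq F]

/-- upper unitriangular -/
def IsU (m : Matrix (Fin n) (Fin n) F) : Prop := (∀ i j, j < i → m i j = 0) ∧ ∀ i, m i i = 1

omit [Fintype F] [DecidableEq F] in
lemma IsU.mul {a b : Matrix (Fin n) (Fin n) F} (ha : IsU n F a) (hb : IsU n F b) :
    IsU n F (a * b) := by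
  refine ⟨fun i j h => ?_, fun i => ?_⟩
  · rw [mul_apply]
    refine Finset.sum_eq_zero fun k _ => ?_
    by_cases hk : k < i
    · rw [ha.1 i k hk, zero_mul]
    · rw [hb.1 k j (by omega), mul_zero]
  · rw [mul_apply, Finset.sum_eq_single i, ha.2, hb.2, one_mul]
    · intro k _ hk
      by_cases h : k < i
      · rw [ha.1 i k h, zero_mul]
      · rw [hb.1 k i (by omega), mul_zero]
    · simp

omit [Fintype F] [DecidableEq F] in
lemma IsU.one : IsU n F 1 := ⟨fun _ _ h => one_apply_ne h.ne', fun i => one_apply_eq i⟩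

/-- the group `U_n(F)` of upper unitriangular matrices -/
def U : Subgroup (GL (Fin n) F) where
  carrier := {g | IsU n F (g : Matrix (Fin n) (Fin n) F)}
  one_mem' := IsU.one n F
  mul_mem' := fun ha hb => IsU.mul n F ha hb
  inv_mem' := by
    intro g hg
    have h : ∀ k : ℕ, IsU n F ((g ^ k : GL (Fin n) F) : Matrix (Fin n) (Fin n) F) := by
      intro k
      induction k with
      | zero => exact IsU.one n F
      | succ k ih => rw [pow_succ]; exact IsU.mul n F ih hg
    have : g⁻¹ = g ^ (orderOf g - 1) := by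
      rw [inv_eq_iff_mul_eq_one, ← pow_succ', Nat.sub_add_cancel (orderOf_pos g), pow_orderOf_eq_one]
    rw [Set.mem_ofPred_eq, this]
    exact h _

/-- the strictly upper triangular matrices -/
def nil : Submodule F (Matrix (Fin n) (Fin n) F) where
  carrier := {m | ∀ i j, j ≤ i → m i j = 0}
  zero_mem' := fun _ _ _ => rfl
  add_mem' := fun ha hb i j h => by simp [ha i j h, hb i j h]
  smul_mem' := fun c _ ha i j h => by simp [ha i j h]

variable {n F}

/-- the matrix of an element of `U` -/
def mat (u : U n F) : Matrix (Fin n) (Fin n) F := ((u : GL (Fin n) F) : Matrix (Fin n) (Fin n) F)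

/-- `g - 1` as a strictly upper triangular matrix -/
def sub1 (g : U n F) : nil n F := ⟨mat g - 1, fun i j h => by
  rcases h.lt_or_eq with h | rfl
  · rw [Matrix.sub_apply, mat, g.2.1 i j h, one_apply_ne h.ne', sub_zero]
  · rw [Matrix.sub_apply, mat, g.2.2, one_apply_eq, sub_self]⟩

/-- the two-sided orbit of the functional `y ↦ a * y i j` -/
def orb (i j : Fin n) (a : F) : Set (Module.Dual F (nil n F)) :=
  {μ | ∃ u v : U n F, ∀ y : nil n F, μ y = a * (mat u * (y : Matrix (Fin n) (Fin n) F) * mat v) i j}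

/-- the single-box supercharacter of Andre's theory (orbit sum) -/
noncomputable def box (θ : AddChar F ℂ) (i j : Fin n) (a : F) (g : U n F) : ℂ :=
  ∑ᶠ μ ∈ orb i j a, θ (μ (sub1 g))

/-- `g`, `h` lie in the same superclass of Andre's theory -/
def Andre (g h : U n F) : Prop := ∃ u v : U n F, mat h - 1 = mat u * (mat g - 1) * mat v

lemma mat_mul (u v : U n F) : mat (u * v) = mat u * mat v := rfl
lemma mat_one : mat (1 : U n F) = 1 := rfl

lemma nil_mul (u v : U n F) (y : Matrix (Fin n) (Fin n) F) (hy : y ∈ nil n F) :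
    mat u * y * mat v ∈ nil n F := by
  intro i j h
  rw [mul_apply]
  refine Finset.sum_eq_zero fun l _ => ?_
  by_cases hl : j < l
  · rw [show mat v l j = 0 from v.2.1 l j hl, mul_zero]
  · rw [mul_apply, Finset.sum_eq_zero, zero_mul]
    intro k _
    by_cases hk : k < i
    · rw [show mat u i k = 0 from u.2.1 i k hk, zero_mul]
    · rw [hy k l (by omega), mul_zero]

/-- elementary matrices -/
noncomputable def el (p q : Fin n) (h : p < q) (s : F) : U n F :=
  ⟨Matrix.GeneralLinearGroup.mkOfDetNeZero (transvection p q s)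
    (by rw [det_transvection_of_ne _ _ h.ne]; exact one_ne_zero), by
    refine ⟨fun i j hij => ?_, fun i => ?_⟩
    · change transvection p q s i j = 0
      rw [transvection, Matrix.add_apply, one_apply_ne hij.ne', single_apply_of_ne, add_zero]
      omega
    · change transvection p q s i i = 1
      rw [transvection, Matrix.add_apply, one_apply_eq, single_apply_of_ne, add_zero]
      omega⟩

lemma mat_el (p q : Fin n) (h : p < q) (s : F) : mat (el p q h s) = transvection p q s := rfl

noncomputable instance : Fintype (U n F) := Fintype.ofFinite _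

noncomputable def T (θ : AddChar F ℂ) (i j : Fin n) (a : F) (x : Matrix (Fin n) (Fin n) F) : ℂ :=
  ∑ p : U n F × U n F, θ (a * (mat p.1 * x * mat p.2) i j)

noncomputable def fn (i j : Fin n) (a : F) (p : U n F × U n F) : Module.Dual F (nil n F) where
  toFun y := a * (mat p.1 * (y : Matrix (Fin n) (Fin n) F) * mat p.2) i j
  map_add' x y := by simp [Matrix.add_mul, mul_add]
  map_smul' c x := by simp; ring

lemma T_box (θ : AddChar F ℂ) (i j : Fin n) (a : F) :
    ∃ N : ℂ, ∀ g, T θ i j a (mat g - 1) = N * box θ i j a g := by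
  classical
  refine ⟨(Finset.univ.filter fun p => fn i j a p = fn i j a (1, 1)).card, fun g => ?_⟩
  have h1 : orb i j a = ↑(Finset.univ.image (fn i j a)) := by
    ext μ
    simp only [orb, Set.mem_ofPred_eq, Finset.coe_image, Finset.coe_univ, Set.image_univ,
      Set.mem_range, Prod.exists]
    constructor
    · rintro ⟨u, v, h⟩; exact ⟨u, v, LinearMap.ext fun y => (h y).symm⟩
    · rintro ⟨u, v, rfl⟩; exact ⟨u, v, fun y => rfl⟩
  rw [box, h1, finsum_mem_coe_finset, Finset.mul_sum, T,
    ← Finset.sum_fiberwise_of_maps_to (t := Finset.univ.image (fn i j a)) (g := fn i j a)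
      (fun p _ => Finset.mem_image_of_mem _ (Finset.mem_univ p))]
  refine Finset.sum_congr rfl fun μ hμ => ?_
  obtain ⟨⟨u0, v0⟩, -, rfl⟩ := Finset.mem_image.1 hμ
  rw [Finset.sum_congr rfl (g := fun _ => θ (fn i j a (u0, v0) (sub1 g))) (fun p hp => by
    rw [← (Finset.mem_filter.1 hp).2]; rfl), Finset.sum_const, nsmul_eq_mul]
  congr 2
  have key : ∀ (u v u' v' a1 b1 : U n F), fn i j a (u, v) = fn i j a (u', v') →
      fn i j a (u * a1, b1 * v) = fn i j a (u' * a1, b1 * v') := by
    intro u v u' v' a1 b1 h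
    ext y
    have := DFunLike.congr_fun h ⟨_, nil_mul a1 b1 y y.2⟩
    simpa [fn, mat_mul, Matrix.mul_assoc] using this
  symm
  refine Finset.card_equiv ((Equiv.mulRight u0).prodCongr (Equiv.mulLeft v0)) ?_
  rintro ⟨u, v⟩
  simp only [Finset.mem_filter, Finset.mem_univ, true_and, Equiv.prodCongr_apply, Prod.map,
    Equiv.coe_mulRight, Equiv.coe_mulLeft]
  constructor
  · intro h; simpa using key _ _ _ _ u0 v0 h
  · intro h; simpa using key _ _ _ _ u0⁻¹ v0⁻¹ h

lemma T_inv (θ : AddChar F ℂ) (i j : Fin n) (a : F) (u v : U n F) (x : Matrix (Fin n) (Fin n) F) :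
    T θ i j a (mat u * x * mat v) = T θ i j a x := by
  refine Fintype.sum_equiv ((Equiv.mulRight u).prodCongr (Equiv.mulLeft v)) _ _ ?_
  rintro ⟨u', v'⟩
  simp [mat_mul, Matrix.mul_assoc]

def Rook (y : Matrix (Fin n) (Fin n) F) : Prop :=
  (∀ p l q, l < q → y p l ≠ 0 → y p q = 0) ∧ ∀ p p' q, p < p' → y p' q ≠ 0 → y p q = 0

lemma exists_rook (x : Matrix (Fin n) (Fin n) F) : ∃ u v : U n F, Rook (mat u * x * mat v) := by
  classical
  let cnt : Matrix (Fin n) (Fin n) F → Lex (Fin n → ℕ) := fun y =>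
    toLex fun q => (Finset.univ.filter fun p => y p q ≠ 0).card
  obtain ⟨⟨u, v⟩, hm⟩ := Finite.exists_min (fun p : U n F × U n F => cnt (mat p.1 * x * mat p.2))
  refine ⟨u, v, ?_⟩
  set y := mat u * x * mat v with hy
  have dec : ∀ (u' v' : U n F) (p q : Fin n), y p q ≠ 0 → (mat u' * y * mat v') p q = 0 →
      (∀ p' l, l < q → (mat u' * y * mat v') p' l = y p' l) →
      (∀ p', p' ≠ p → (mat u' * y * mat v') p' q = y p' q) → False := by
    intro u' v' p q h0 h1 h2 h3
    have := hm (u' * u, v * v')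
    simp only [mat_mul] at this
    rw [show mat u' * mat u * x * (mat v * mat v') = mat u' * y * mat v' by
      simp [hy, Matrix.mul_assoc]] at this
    refine absurd this (not_le.2 ⟨q, fun l hl => ?_, ?_⟩)
    · simp only [cnt, Pi.toLex_apply, h2 _ l hl]
    · simp only [cnt, Pi.toLex_apply]
      apply Finset.card_lt_card
      refine ⟨fun p' hp' => ?_, fun hs => ?_⟩
      · rw [Finset.mem_filter] at hp' ⊢
        by_cases e : p' = p
        · exact ⟨hp'.1, e ▸ h0⟩
        · exact ⟨hp'.1, h3 p' e ▸ hp'.2⟩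
      · exact (Finset.mem_filter.1 (hs (Finset.mem_filter.2 ⟨Finset.mem_univ p, h0⟩))).2 h1
  have main : ∀ q : Fin n, (∀ p l, l < q → y p l ≠ 0 → y p q = 0) ∧
      ∀ p p', p < p' → y p' q ≠ 0 → y p q = 0 := by
    intro q
    induction q using WellFoundedLT.induction with
    | ind q ih =>
      have hA : ∀ p l, l < q → y p l ≠ 0 → y p q = 0 := by
        intro p l hl h0
        by_contra h1
        refine dec 1 (el l q hl (-(y p q / y p l))) p q h1 ?_ ?_ ?_
        · rw [mat_one, Matrix.one_mul, mat_el, mul_transvection_apply_same]; field_simp; ring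
        · intro p' l' hl'
          rw [mat_one, Matrix.one_mul, mat_el, mul_transvection_apply_of_ne _ _ _ _ hl'.ne]
        · intro p' hp'
          have : y p' l = 0 := by
            rcases lt_or_gt_of_ne hp' with h | h
            · exact (ih l hl).2 p' p h h0
            · by_contra h2; exact h0 ((ih l hl).2 p p' h h2)
          rw [mat_one, Matrix.one_mul, mat_el, mul_transvection_apply_same, this]; ring
      refine ⟨hA, fun p p' hp h0 => ?_⟩
      by_contra h1
      refine dec (el p p' hp (-(y p q / y p' q))) 1 p q h1 ?_ ?_ ?_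
      · rw [mat_one, Matrix.mul_one, mat_el, transvection_mul_apply_same]; field_simp; ring
      · intro p'' l hl
        have : y p' l = 0 := by by_contra h2; exact h0 (hA p' l hl h2)
        rw [mat_one, Matrix.mul_one, mat_el]
        by_cases e : p'' = p
        · rw [e, transvection_mul_apply_same, this]; ring
        · rw [transvection_mul_apply_of_ne _ _ _ _ e]
      · intro p'' e
        rw [mat_one, Matrix.mul_one, mat_el, transvection_mul_apply_of_ne _ _ _ _ e]
  exact ⟨fun p l q => (main q).1 p l, fun p p' q => (main q).2 p p'⟩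

lemma lin_sum (θ : AddChar F ℂ) (hθ : θ ≠ 1) (i : Fin n) (w : Fin n → F) (hw : w i = 0) :
    ∑ u : U n F, θ (∑ k, mat u i k * w k) = 0 ∨
      ∑ u : U n F, θ (∑ k, mat u i k * w k) = Fintype.card (U n F) := by
  by_cases h : ∀ k, i < k → w k = 0
  · right
    rw [Finset.sum_congr rfl (g := fun _ => 1) fun u _ => ?_]
    · simp
    · rw [Finset.sum_eq_zero, AddChar.map_zero_eq_one]
      intro k _
      rcases lt_trichotomy k i with hk | rfl | hk
      · rw [show mat u i k = 0 from u.2.1 i k hk, zero_mul]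
      · rw [hw, mul_zero]
      · rw [h k hk, mul_zero]
  · left
    push Not at h
    obtain ⟨k0, hk, h0⟩ := h
    obtain ⟨s, hs⟩ := AddChar.ne_one_iff.1 hθ
    have e : ∑ u : U n F, θ (∑ k, mat u i k * w k) =
        θ s * ∑ u : U n F, θ (∑ k, mat u i k * w k) := by
      rw [Finset.mul_sum]
      refine (Fintype.sum_equiv (Equiv.mulRight (el i k0 hk (s / w k0))) _ _ fun u => ?_).symm
      rw [← AddChar.map_add_eq_mul, Equiv.coe_mulRight, mat_mul, mat_el]
      congr 1
      have e0 : ∑ k ∈ Finset.univ.erase k0, (mat u * transvection i k0 (s / w k0)) i k * w k =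
          ∑ k ∈ Finset.univ.erase k0, mat u i k * w k := Finset.sum_congr rfl fun k hk => by
        rw [mul_transvection_apply_of_ne _ _ _ _ (Finset.ne_of_mem_erase hk)]
      rw [← Finset.add_sum_erase _ _ (Finset.mem_univ k0),
        ← Finset.add_sum_erase _ _ (Finset.mem_univ k0), mul_transvection_apply_same,
        show mat u i i = 1 from u.2.2 i, e0]
      field_simp
      ring
    by_contra h1
    exact hs (mul_right_cancel₀ h1 (by rw [← e, one_mul]))

lemma T_ne (θ : AddChar F ℂ) (hθ : θ ≠ 1) (i j : Fin n) (a : F) (z : Matrix (Fin n) (Fin n) F)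
    (h1 : ∀ l, l ≤ j → z i l = 0) (h2 : ∀ k, i ≤ k → z k j = 0) : T θ i j a z ≠ 0 := by
  classical
  have e : ∀ v : U n F, ∑ u : U n F, θ (a * (mat u * z * mat v) i j) =
      ∑ u : U n F, θ (∑ k, mat u i k * (a * (z * mat v) k j)) := fun v => by
    refine Finset.sum_congr rfl fun u _ => ?_
    rw [Matrix.mul_assoc, mul_apply, Finset.mul_sum]
    congr 1
    exact Finset.sum_congr rfl fun k _ => by ring
  have hw : ∀ v : U n F, a * (z * mat v) i j = 0 := fun v => by
    rw [mul_apply, Finset.sum_eq_zero, mul_zero]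
    intro l _
    by_cases hl : j < l
    · rw [show mat v l j = 0 from v.2.1 l j hl, mul_zero]
    · rw [h1 l (by omega), zero_mul]
  have hc : ∀ v : U n F, ∃ m : ℕ, ∑ u : U n F, θ (a * (mat u * z * mat v) i j) = m ∧
      (v = 1 → m ≠ 0) := fun v => by
    by_cases hv : v = 1
    · refine ⟨Fintype.card (U n F), ?_, fun _ => Fintype.card_ne_zero⟩
      rw [e, Finset.sum_congr rfl (g := fun _ => 1) fun u _ => ?_]
      · simp
      · rw [Finset.sum_eq_zero, AddChar.map_zero_eq_one]
        intro k _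
        by_cases hk : k < i
        · rw [show mat u i k = 0 from u.2.1 i k hk, zero_mul]
        · rw [hv, mat_one, Matrix.mul_one, h2 k (by omega), mul_zero, mul_zero]
    · rcases lin_sum θ hθ i (fun k => a * (z * mat v) k j) (hw v) with h | h
      · exact ⟨0, by rw [e, h]; simp, fun h => absurd h hv⟩
      · exact ⟨_, by rw [e, h], fun h => absurd h hv⟩
  choose m hm hm1 using hc
  rw [T, Fintype.sum_prod_type_right]
  simp only [hm]
  have : ∑ v, m v ≠ 0 := fun h => hm1 1 rfl (Finset.sum_eq_zero_iff.1 h 1 (Finset.mem_univ _))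
  exact_mod_cast this

lemma T_split (θ : AddChar F ℂ) (i j : Fin n) (a : F) (y z : Matrix (Fin n) (Fin n) F) (c : F)
    (h : ∀ k l, i ≤ k → l ≤ j → y k l = z k l + single i j c k l) :
    T θ i j a y = θ (a * c) * T θ i j a z := by
  rw [T, T, Finset.mul_sum]
  refine Finset.sum_congr rfl fun p _ => ?_
  rw [← AddChar.map_add_eq_mul, ← mul_add]
  congr 2
  have e1 : (mat p.1 * y * mat p.2) i j = (mat p.1 * (z + single i j c) * mat p.2) i j := by
    simp only [mul_apply]
    refine Finset.sum_congr rfl fun l _ => ?_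
    by_cases hl : j < l
    · rw [show mat p.2 l j = 0 from p.2.2.1 l j hl, mul_zero, mul_zero]
    · congr 1
      refine Finset.sum_congr rfl fun k _ => ?_
      by_cases hk : k < i
      · rw [show mat p.1 i k = 0 from p.1.2.1 i k hk, zero_mul, zero_mul]
      · rw [h k l (by omega) (by omega), Matrix.add_apply]
  rw [e1, Matrix.mul_add, Matrix.add_mul, Matrix.add_apply, add_comm]
  congr 1
  rw [mul_apply, Finset.sum_eq_single j, mul_single_apply_same, show mat p.1 i i = 1 from p.1.2.2 i,
    show mat p.2 j j = 1 from p.2.2.2 j, one_mul, mul_one]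
  · intro l _ hl
    rw [mul_single_apply_of_ne _ _ _ _ _ hl, zero_mul]
  · simp

lemma rook_eq (θ : AddChar F ℂ) (hθ : θ ≠ 1) (y y' : Matrix (Fin n) (Fin n) F) (hy : y ∈ nil n F)
    (hy' : y' ∈ nil n F) (r : Rook y) (r' : Rook y')
    (h : ∀ i j, i < j → ∀ a, a ≠ 0 → T θ i j a y = T θ i j a y') : y = y' := by
  have main : ∀ d : ℕ, ∀ i j : Fin n, (j : ℕ) - i = d → y i j = y' i j := by
    intro d
    induction d using Nat.strong_induction_on with
    | _ d ih =>
      intro i j hd
      by_cases hij : j ≤ i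
      · rw [hy i j hij, hy' i j hij]
      have hij' : i < j := by omega
      have sh : ∀ k l, i ≤ k → l ≤ j → ¬ (k = i ∧ l = j) → y k l = y' k l := by
        intro k l hk hl hne
        refine ih _ ?_ k l rfl
        have : (k : ℕ) ≠ i ∨ (l : ℕ) ≠ j := by
          by_contra hc; push Not at hc; exact hne ⟨Fin.ext hc.1, Fin.ext hc.2⟩
        omega
      by_cases c1 : ∃ l, l < j ∧ y i l ≠ 0
      · obtain ⟨l, hl, h0⟩ := c1
        rw [r.1 i l j hl h0, r'.1 i l j hl (by rwa [← sh i l le_rfl hl.le (by omega)])]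
      by_cases c2 : ∃ k, i < k ∧ y k j ≠ 0
      · obtain ⟨k, hk, h0⟩ := c2
        rw [r.2 i k j hk h0, r'.2 i k j hk (by rwa [← sh k j hk.le le_rfl (by omega)])]
      push Not at c1 c2
      let z := y - single i j (y i j)
      have hz : ∀ k l, ¬ (k = i ∧ l = j) → z k l = y k l := fun k l hne => by
        simp only [z, Matrix.sub_apply]
        rw [single_apply_of_ne _ _ _ _ _ (by tauto), sub_zero]
      have hz0 : z i j = 0 := by simp [z]
      by_contra hne
      obtain ⟨s, hs⟩ := AddChar.ne_one_iff.1 hθ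
      have hs0 : s ≠ 0 := fun e => hs (by rw [e, AddChar.map_zero_eq_one])
      have hd0 : y i j - y' i j ≠ 0 := sub_ne_zero.2 hne
      have e1 := T_split θ i j (s / (y i j - y' i j)) y z (y i j) (fun k l _ _ => by simp [z])
      have e2 := T_split θ i j (s / (y i j - y' i j)) y' z (y' i j) (fun k l hk hl => by
        by_cases e : k = i ∧ l = j
        · rw [e.1, e.2, hz0]; simp
        · rw [hz k l e, single_apply_of_ne _ _ _ _ _ (by tauto), add_zero, sh k l hk hl e])
      have e3 := T_ne θ hθ i j (s / (y i j - y' i j)) z (fun l hl => by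
        rcases hl.lt_or_eq with hl | rfl
        · rw [hz i l (by omega), c1 l hl]
        · exact hz0) (fun k hk => by
        rcases hk.lt_or_eq with hk | rfl
        · rw [hz k j (by omega), c2 k hk]
        · exact hz0)
      rw [h i j hij' _ (div_ne_zero hs0 hd0), e2] at e1
      have e4 := mul_right_cancel₀ e3 e1
      apply hs
      have e5 : s / (y i j - y' i j) * y i j = s + s / (y i j - y' i j) * y' i j := by
        field_simp; ring
      rw [e5, AddChar.map_add_eq_mul] at e4
      have e6 : θ (s / (y i j - y' i j) * y' i j) ≠ 0 := (θ.val_isUnit _).ne_zero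
      exact (mul_right_cancel₀ e6 (by rw [← e4, one_mul])).symm
  ext i j
  exact main _ i j rfl

theorem result (n : ℕ) (F : Type) [Field F] [Fintype F] [DecidableEq F] (θ : AddChar F ℂ)
    (hθ : θ ≠ 1) (S : SCT (U n F))
    (hS : ∀ i j : Fin n, i < j → ∀ a : F, a ≠ 0 →
      ∃ χ : U n F → ℂ, {χ} ∈ S.X ∧ ∃ c : ℂ, ∀ g, box θ i j a g = c * χ g) :
    ∀ C ∈ S.K, ∀ g ∈ C, ∀ h ∈ C, Andre g h := by
  intro C hC g hg h hh
  obtain ⟨u, v, r⟩ := exists_rook (mat g - 1)
  obtain ⟨u', v', r'⟩ := exists_rook (mat h - 1)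
  have key := rook_eq θ hθ _ _ (nil_mul u v _ (sub1 g).2) (nil_mul u' v' _ (sub1 h).2) r r' (by
    intro i j hij a ha
    obtain ⟨χ, hχ, c, hc⟩ := hS i j hij a ha
    obtain ⟨N, hN⟩ := T_box θ i j a
    have h1 := S.const _ hχ C hC g hg h hh
    rw [finsum_mem_singleton, finsum_mem_singleton] at h1
    have h2 : χ g = χ h := by
      by_cases h0 : χ 1 = 0
      · obtain ⟨V, -, rfl⟩ := (S.X_sub _ hχ).2 rfl
        rw [FDRep.char_one, Nat.cast_eq_zero, Module.finrank_zero_iff] at h0
        simp only [FDRep.character]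
        rw [Subsingleton.elim (V.ρ g) (V.ρ h)]
      · exact mul_left_cancel₀ h0 h1
    change T θ i j a (mat u * (mat g - 1) * mat v) = T θ i j a (mat u' * (mat h - 1) * mat v')
    rw [T_inv, T_inv, hN, hN, hc, hc, h2])
  refine ⟨u'⁻¹ * u, v * v'⁻¹, ?_⟩
  change mat u * (mat g - 1) * mat v = mat u' * (mat h - 1) * mat v' at key
  rw [mat_mul, mat_mul, show mat u'⁻¹ * mat u * (mat g - 1) * (mat v * mat v'⁻¹) =
    mat u'⁻¹ * (mat u * (mat g - 1) * mat v) * mat v'⁻¹ by simp [Matrix.mul_assoc], key,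
    show mat u'⁻¹ * (mat u' * (mat h - 1) * mat v') * mat v'⁻¹ =
      (mat u'⁻¹ * mat u') * (mat h - 1) * (mat v' * mat v'⁻¹) by simp [Matrix.mul_assoc],
    ← mat_mul, ← mat_mul, inv_mul_cancel, mul_inv_cancel, mat_one, Matrix.one_mul, Matrix.mul_one]

end Pool.Agent.Results.MP_1f99fc_al.Yes
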